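import Pool.Agent.Y947.RL.Stm

/-! # Divisibility by powers of `1 - ζ_p` (job RL PI) -/

set_option autoImplicit false

open Finset Polynomial Module Pool.Agent.Y947.RL

namespace Pool.Agent.Y692.RL

section core
variable {R : Type*} [CommRing R]

theorem one_sub_dvd (η : R) (j : ℕ) : 1 - η ∣ 1 - η ^ j := by
  have := sub_dvd_pow_sub_pow (1 : R) η j
  simpa using this

theorem sub_dvd_aeval (a b : R) (P : ℤ[X]) : a - b ∣ aeval a P - aeval b P := by
  have := Polynomial.sub_dvd_eval_sub a b (P.map (algebraMap ℤ R))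
  simpa only [eval_map_algebraMap] using this

/-- `η ^ (e k) - 1` -/
theorem dvd_pow_sub_self {z : R} {e u : ℕ} (hu : 1 ≤ u) (h : u ≡ 1 [MOD e]) :
    1 - z ^ e ∣ z ^ u - z := by
  obtain ⟨k, hk⟩ := (Nat.modEq_iff_dvd' hu).1 h.symm
  have h1 : z ^ u = z * (z ^ e) ^ k := by
    rw [← pow_mul, ← hk, ← pow_succ']
    congr 1
    omega
  rw [h1, show z * (z ^ e) ^ k - z = -(z * (1 - (z ^ e) ^ k)) by ring]
  exact ((one_sub_dvd (z ^ e) k).mul_left z).neg_right

theorem dvd_geom (η : R) (u : ℕ) : 1 - η ∣ (u : R) - ∑ i ∈ range u, η ^ i := by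
  have h1 : (u : R) - ∑ i ∈ range u, η ^ i = ∑ i ∈ range u, (1 - η ^ i) := by
    rw [Finset.sum_sub_distrib]
    simp
  rw [h1]
  exact Finset.dvd_sum fun i _ => one_sub_dvd η i

/-- the main computation -/
theorem pow_dvd_of_fixed [IsDomain R] {z b x : R} {e u v : ℕ} (hz : z ^ e ≠ 1) (hu : 1 ≤ u)
    (hue : u ≡ 1 [MOD e]) (B : ℤ[X]) (hB : aeval z B = b)
    (hx : x = (1 - z ^ e) ^ v * b) (hx' : x = (1 - (z ^ u) ^ e) ^ v * aeval (z ^ u) B) :
    1 - z ^ e ∣ ((u : R) ^ v - 1) * b := by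
  set η := z ^ e with hη
  set s := ∑ i ∈ range u, η ^ i with hs
  have hπ : (1 - η) ≠ 0 := sub_ne_zero.2 (Ne.symm hz)
  have h1 : 1 - (z ^ u) ^ e = (1 - η) * s := by
    rw [hs, mul_neg_geom_sum, hη, ← pow_mul, ← pow_mul, Nat.mul_comm]
  have h2 : b = s ^ v * aeval (z ^ u) B := by
    rw [h1, mul_pow, hx, mul_assoc] at hx'
    exact mul_left_cancel₀ (pow_ne_zero _ hπ) hx'
  have h3 : ((u : R) ^ v - 1) * b = ((u : R) ^ v - s ^ v) * b - s ^ v * (aeval (z ^ u) B - b) := by
    have : ((u : R) ^ v - s ^ v) * b - s ^ v * (aeval (z ^ u) B - b) =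
        (u : R) ^ v * b - s ^ v * aeval (z ^ u) B := by ring
    rw [this, ← h2]
    ring
  rw [h3]
  apply dvd_sub
  · exact ((dvd_geom η u).trans (sub_dvd_pow_sub_pow _ _ v)).mul_right b
  · apply Dvd.dvd.mul_left
    rw [← hB]
    exact (dvd_pow_sub_self hu hue).trans (sub_dvd_aeval _ _ B)

theorem dvd_prime [IsDomain R] {η : R} {p : ℕ} (hp : p.Prime) (hη : IsPrimitiveRoot η p) :
    1 - η ∣ (p : R) := by
  obtain ⟨n, rfl⟩ : ∃ n, p = n + 1 := ⟨p - 1, by have := hp.pos; omega⟩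
  have h1 := hη.prod_one_sub_pow_eq_order
  have hn : 0 < n := by have := hp.two_le; omega
  rw [show ((n + 1 : ℕ) : R) = (n : R) + 1 by push_cast; ring, ← h1]
  exact (one_sub_dvd η 1).trans ((by simp : (1 - η ^ 1) = 1 - η ^ (0 + 1)) ▸
    Finset.dvd_prod_of_mem (fun k => 1 - η ^ (k + 1)) (mem_range.2 hn))

theorem not_unit [IsDomain R] {η : R} {p : ℕ} (hp : p.Prime) (hη : IsPrimitiveRoot η p)
    (hu : ¬ IsUnit (p : R)) : ¬ IsUnit (1 - η) := by
  obtain ⟨n, rfl⟩ : ∃ n, p = n + 1 := ⟨p - 1, by have := hp.pos; omega⟩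
  intro h
  apply hu
  have h1 := hη.prod_one_sub_pow_eq_order
  rw [show ((n + 1 : ℕ) : R) = (n : R) + 1 by push_cast; ring, ← h1]
  rw [IsUnit.prod_iff]
  intro k hk
  have hc : (k + 1).Coprime (n + 1) := by
    apply Nat.Coprime.symm
    rw [Nat.Prime.coprime_iff_not_dvd hp]
    intro hd
    have := Nat.le_of_dvd (by omega) hd
    have := mem_range.1 hk
    omega
  have h2 := hη.associated_sub_one_pow_sub_one_of_coprime hc
  have h3 : Associated (1 - η) (1 - η ^ (k + 1)) := by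
    have := h2.neg_left.neg_right
    simpa using this
  exact h3.isUnit_iff.1 h

theorem core [IsDomain R] [WfDvdMonoid R] {z : R} {m p : ℕ} (hz : IsPrimitiveRoot z m)
    (hm : 0 < m) (hp : p.Prime) (hpm : p ∣ m) (hp2 : ¬ p ^ 2 ∣ m) (hu : ¬ IsUnit (p : R))
    (hsurj : ∀ r : R, ∃ B : ℤ[X], aeval z B = r)
    (hmin : ∀ P : ℤ[X], aeval z P = 0 → ∀ u : ℕ, u.Coprime m → aeval (z ^ u) P = 0)
    (H : Finset ℕ) (hH : H ⊆ Gset m p) (A : ℤ[X])
    (hA : ∀ u ∈ H, aeval (z ^ u) A = aeval z A) (hd : 1 - z ^ (m / p) ∣ aeval z A) :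
    (1 - z ^ (m / p)) ^ H.card ∣ aeval z A := by
  classical
  have : Fact p.Prime := ⟨hp⟩
  set e := m / p with he
  have hme : m = p * e := (Nat.mul_div_cancel' hpm).symm
  have hη : IsPrimitiveRoot (z ^ e) p := hz.pow hm (by rw [hme, Nat.mul_comm])
  by_cases hx0 : aeval z A = 0
  · rw [hx0]
    exact dvd_zero _
  have hnu := not_unit hp hη hu
  obtain ⟨v, b, hb, hxb⟩ := WfDvdMonoid.max_power_factor' hx0 hnu
  obtain ⟨B, hB⟩ := hsurj b
  have hv : 0 < v := by
    rcases Nat.eq_zero_or_pos v with h | h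
    · exfalso
      apply hb
      rw [h, pow_zero, one_mul] at hxb
      rw [← hxb]
      exact hd
    · exact h
  have hη1 : z ^ e ≠ 1 := hη.ne_one hp.one_lt
  have hmem : ∀ u ∈ H, u < m ∧ u.Coprime m ∧ u ≡ 1 [MOD e] := by
    intro u huH
    have := hH huH
    unfold Gset at this
    rw [mem_filter, mem_range] at this
    exact this
  have hm1 : m ≠ 1 := by
    rintro rfl
    exact hp.one_lt.ne' (Nat.dvd_one.1 hpm)
  have key : ∀ u ∈ H, ((u : ZMod p)) ^ v = 1 := by
    intro u huH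
    obtain ⟨-, huc, hue⟩ := hmem u huH
    have hu1 : 1 ≤ u := by
      rcases Nat.eq_zero_or_pos u with h | h
      · rw [h, Nat.coprime_zero_left] at huc
        exact absurd huc hm1
      · exact h
    have h1 : aeval z (A - (1 - X ^ e) ^ v * B) = 0 := by
      simp only [map_sub, map_mul, map_pow, map_one, aeval_X, hB]
      rw [hxb, sub_self]
    have h2 := hmin _ h1 u huc
    simp only [map_sub, map_mul, map_pow, map_one, aeval_X] at h2
    have h3 := pow_dvd_of_fixed (x := aeval z A) hη1 hu1 hue B hB hxb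
      (by rw [← hA u huH]; exact sub_eq_zero.1 h2)
    by_contra hne
    have h4 : ¬ (p : ℤ) ∣ ((u : ℤ) ^ v - 1) := by
      intro hdv
      apply hne
      have := (ZMod.intCast_zmod_eq_zero_iff_dvd ((u : ℤ) ^ v - 1) p).2 hdv
      push_cast at this
      exact sub_eq_zero.1 this
    have h5 : IsCoprime (p : ℤ) ((u : ℤ) ^ v - 1) :=
      (Prime.coprime_iff_not_dvd (Nat.prime_iff_prime_int.1 hp)).2 h4
    obtain ⟨a, c, hac⟩ := h5
    apply hb
    have h6 : b = (a : R) * ((p : R) * b) + (c : R) * (((u : R) ^ v - 1) * b) := by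
      have := congrArg (Int.cast : ℤ → R) hac
      push_cast at this
      linear_combination (-b) * this
    rw [h6]
    exact dvd_add (((dvd_prime hp hη).mul_right b).mul_left _) (h3.mul_left _)
  have hcop : Nat.Coprime p e := by
    rw [Nat.Prime.coprime_iff_not_dvd hp]
    rintro ⟨k, hk⟩
    apply hp2
    exact ⟨k, by rw [hme, hk]; ring⟩
  have hcard : H.card ≤ v := by
    have h1 : H.card ≤ (nthRoots v (1 : ZMod p)).toFinset.card := by
      apply Finset.card_le_card_of_injOn (fun u : ℕ => (u : ZMod p))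
      · intro u huH
        simp only [Finset.mem_coe, Multiset.mem_toFinset]
        rw [mem_nthRoots hv]
        exact key u huH
      · intro u huH w hwH huw
        have h2 : u ≡ w [MOD p] := (ZMod.natCast_eq_natCast_iff u w p).1 huw
        obtain ⟨hu1, -, hu3⟩ := hmem u huH
        obtain ⟨hw1, -, hw3⟩ := hmem w hwH
        have h3 : u ≡ w [MOD e] := hu3.trans hw3.symm
        have h4 : u ≡ w [MOD p * e] := (Nat.modEq_and_modEq_iff_modEq_mul hcop).1 ⟨h2, h3⟩
        rw [← hme] at h4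
        exact Nat.ModEq.eq_of_lt_of_lt h4 hu1 hw1
    exact h1.trans ((Multiset.toFinset_card_le _).trans (card_nthRoots v 1))
  rw [hxb]
  exact (pow_dvd_pow _ hcard).mul_right b

end core

section field
variable {K : Type} [Field K] [NumberField K]

/-- conjugate roots of unity annihilate the same polynomials -/
theorem aeval_pow_eq_zero {ζ : K} {m : ℕ} (hm : 0 < m) (hζ : IsPrimitiveRoot ζ m) (P : ℤ[X])
    (hP : aeval ζ P = 0) (u : ℕ) (hu : u.Coprime m) : aeval (ζ ^ u) P = 0 := by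
  have h1 : minpoly ℤ ζ ∣ P := minpoly.isIntegrallyClosed_dvd (hζ.isIntegral hm) hP
  rw [hζ.minpoly_eq_pow_coprime hu] at h1
  obtain ⟨Q, rfl⟩ := h1
  rw [map_mul, minpoly.aeval, zero_mul]

/-- integral quotients of elements of `ℤ[ζ]` are in `ℤ[ζ]` -/
theorem integral_quot {ζ : K} {m : ℕ} (hm : 0 < m) (hζ : IsPrimitiveRoot ζ m) {x w y : K}
    (hx : x ∈ Algebra.adjoin ℤ {ζ}) (hw : w ∈ Algebra.adjoin ℤ {ζ}) (hw0 : w ≠ 0)
    (hy : IsIntegral ℤ y) (hxy : x = w * y) : y ∈ Algebra.adjoin ℤ {ζ} := by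
  have : NeZero m := ⟨hm.ne'⟩
  let L := IntermediateField.adjoin ℚ {ζ}
  have hζL : ζ ∈ L := IntermediateField.mem_adjoin_simple_self ℚ ζ
  let z : L := ⟨ζ, hζL⟩
  have hz : IsPrimitiveRoot z m := by
    apply IsPrimitiveRoot.of_map_of_injective (f := algebraMap L K) hζ
    exact (algebraMap L K).injective
  have hcyc : IsCyclotomicExtension {m} ℚ L :=
    hζ.intermediateField_adjoin_isCyclotomicExtension ℚ
  have hic := IsCyclotomicExtension.Rat.isIntegralClosure_adjoin_singleton hz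
  have hsub : ∀ t ∈ Algebra.adjoin ℤ {ζ}, t ∈ L := by
    intro t ht
    rw [Algebra.adjoin_singleton_eq_range_aeval] at ht
    obtain ⟨B, rfl⟩ := ht
    have : aeval ζ B = algebraMap L K (aeval z B) := by
      rw [← aeval_algebraMap_apply]
      rfl
    show aeval ζ B ∈ L
    rw [this]
    exact (aeval z B).2
  have hyL : y ∈ L := by
    have : y = x / w := by
      rw [hxy]
      field_simp
    rw [this]
    exact L.div_mem (hsub x hx) (hsub w hw)
  have hyi : IsIntegral ℤ (⟨y, hyL⟩ : L) := by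
    have := (isIntegral_algebraMap_iff (R := ℤ) (A := L) (B := K) (x := ⟨y, hyL⟩)
      (algebraMap L K).injective)
    exact this.1 hy
  obtain ⟨r, hr⟩ := hic.isIntegral_iff.1 hyi
  have hr2 : (r : L) ∈ (aeval (R := ℤ) z).range := by
    rw [← Algebra.adjoin_singleton_eq_range_aeval]
    exact r.2
  obtain ⟨B, hB⟩ := hr2
  have h1 : y = aeval ζ B := by
    have h2 : (⟨y, hyL⟩ : L) = aeval z B := by
      rw [← hr]
      exact hB.symm
    have h3 := congrArg (algebraMap L K) h2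
    rw [← aeval_algebraMap_apply] at h3
    exact h3
  rw [h1]
  exact aeval_mem_adjoin_singleton ℤ ζ

end field

theorem pi : S_PI := by
  intro K _ _ m ζ hm hζ p hp hpm hp2 H hH h1H hmul A hA hy
  obtain ⟨y, hyi, hxy⟩ := hy
  let R := Algebra.adjoin ℤ {ζ}
  let z : R := ⟨ζ, Algebra.self_mem_adjoin_singleton ℤ ζ⟩
  have hz : IsPrimitiveRoot z m := by
    apply IsPrimitiveRoot.of_map_of_injective (f := R.val) hζ
    exact Subtype.val_injective
  have hcoe : ∀ (t : R) (P : ℤ[X]), ((aeval t P : R) : K) = aeval (t : K) P := by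
    intro t P
    exact (Polynomial.aeval_algHom_apply R.val t P).symm
  have hfg : R.FG := ⟨{ζ}, by rw [Finset.coe_singleton]⟩
  have hnoeth : IsNoetherianRing R := isNoetherianRing_of_fg hfg
  have hint : ∀ t : R, IsIntegral ℤ (t : K) := by
    intro t
    have h1 : Algebra.adjoin ℤ {ζ} ≤ integralClosure ℤ K := by
      rw [Algebra.adjoin_le_iff]
      intro s hs
      rw [Set.mem_singleton_iff] at hs
      rw [hs]
      exact hζ.isIntegral hm
    exact h1 t.2
  have hpu : ¬ IsUnit ((p : ℕ) : R) := by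
    intro h
    obtain ⟨w, hw⟩ := h.exists_right_inv
    have h1 := hint w
    have h2 : (w : K) = algebraMap ℚ K ((p : ℚ)⁻¹) := by
      have h3 := congrArg (fun t : R => (t : K)) hw
      have h4 : ((p : ℕ) : K) * (w : K) = 1 := by
        have : (((p : ℕ) : R) * w : R) = 1 := hw
        exact_mod_cast h3
      have hp0 : ((p : ℕ) : K) ≠ 0 := Nat.cast_ne_zero.2 hp.ne_zero
      rw [map_inv₀, map_natCast]
      field_simp
      rw [mul_comm]
      exact h4
    rw [h2, isIntegral_algebraMap_iff (algebraMap ℚ K).injective] at h1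
    obtain ⟨n, hn⟩ := (IsIntegrallyClosed.isIntegral_iff (R := ℤ)).1 h1
    have hp0 : (p : ℚ) ≠ 0 := Nat.cast_ne_zero.2 hp.ne_zero
    have h5 : (n : ℚ) * p = 1 := by
      have : (n : ℚ) = (p : ℚ)⁻¹ := by simpa using hn
      rw [this]
      field_simp
    have h6 : n * (p : ℤ) = 1 := by exact_mod_cast h5
    have h7 : (p : ℤ) ∣ 1 := ⟨n, by rw [mul_comm]; exact h6.symm⟩
    have h8 : p ∣ 1 := by exact_mod_cast h7
    exact hp.one_lt.ne' (Nat.dvd_one.1 h8)
  have hsurj : ∀ r : R, ∃ B : ℤ[X], aeval z B = r := by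
    intro r
    have hr2 : (r : K) ∈ (aeval (R := ℤ) ζ).range := by
      rw [← Algebra.adjoin_singleton_eq_range_aeval]
      exact r.2
    obtain ⟨B, hB⟩ := hr2
    refine ⟨B, Subtype.ext ?_⟩
    rw [hcoe]
    exact hB
  have hmin : ∀ P : ℤ[X], aeval z P = 0 → ∀ u : ℕ, u.Coprime m → aeval (z ^ u) P = 0 := by
    intro P hP u hu
    apply Subtype.ext
    rw [hcoe]
    show aeval (ζ ^ u) P = 0
    apply aeval_pow_eq_zero hm hζ P _ u hu
    have h1 := hcoe z P
    rw [hP] at h1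
    exact h1.symm
  have hme : m = p * (m / p) := (Nat.mul_div_cancel' hpm).symm
  have hη : IsPrimitiveRoot (ζ ^ (m / p)) p :=
    hζ.pow hm (by rw [Nat.mul_comm]; exact hme)
  have hπ0 : (1 - ζ ^ (m / p)) ≠ 0 := sub_ne_zero.2 (hη.ne_one hp.one_lt).symm
  have hπR : (1 - ζ ^ (m / p)) ∈ Algebra.adjoin ℤ {ζ} :=
    Subalgebra.sub_mem _ (Subalgebra.one_mem _)
      (Subalgebra.pow_mem _ (Algebra.self_mem_adjoin_singleton ℤ ζ) _)
  have hyR : y ∈ Algebra.adjoin ℤ {ζ} :=
    integral_quot hm hζ (aeval_mem_adjoin_singleton ℤ ζ) hπR hπ0 hyi hxy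
  have hd : 1 - z ^ (m / p) ∣ aeval z A := by
    refine ⟨⟨y, hyR⟩, Subtype.ext ?_⟩
    rw [hcoe]
    exact hxy
  have hA' : ∀ u ∈ H, aeval (z ^ u) A = aeval z A := by
    intro u hu
    apply Subtype.ext
    rw [hcoe, hcoe]
    exact hA u hu
  obtain ⟨c, hc⟩ := core hz hm hp hpm hp2 hpu hsurj hmin H hH A hA' hd
  refine ⟨(c : K), hint c, ?_⟩
  have h9 : ((aeval z A : R) : K) = (((1 - z ^ (m / p)) ^ H.card * c : R) : K) :=
    congrArg (fun t : R => (t : K)) hc
  rw [hcoe] at h9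
  exact h9

end Pool.Agent.Y692.RL
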