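import Pool.Agent.Y947.RL.Stm

/-! # The congruence between `p`-th powers (job RL RAM) -/

set_option autoImplicit false

open Finset Polynomial Module Pool.Agent.H388SL Pool.Agent.Y947.DL Pool.Agent.Y947.RL

namespace Pool.Agent.Y692.RL

/-- values of specialisations under ring homomorphisms -/
theorem sp_map {A B : Type*} [CommRing A] [CommRing B] (f : A →+* B) (v a : A) (F : ℤ[X][X]) :
    f ((sp v F).eval a) = (sp (f v) F).eval (f a) := by
  unfold sp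
  rw [eval_map, eval_map, hom_eval₂]
  congr 1
  apply Polynomial.ringHom_ext
  · intro n
    simp
  · simp

theorem sp_mono {A : Type*} [CommRing A] (v a : A) (n : ℕ) (c : ℤ[X]) :
    (sp v (monomial n c)).eval a = aeval v c * a ^ n := by
  unfold sp
  rw [map_monomial, eval_monomial]
  rfl

theorem sp_add {A : Type*} [CommRing A] (v a : A) (F G : ℤ[X][X]) :
    (sp v (F + G)).eval a = (sp v F).eval a + (sp v G).eval a := by
  unfold sp
  rw [Polynomial.map_add, eval_add]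

/-- the Frobenius congruence -/
theorem frob {A : Type*} [CommRing A] (v a : A) (p : ℕ) [Fact p.Prime] (F : ℤ[X][X]) :
    ∃ w : A, (sp (v ^ p) F).eval (a ^ p) = ((sp v F).eval a) ^ p + p * w := by
  induction F using Polynomial.induction_on' with
  | add F G hF hG =>
    obtain ⟨w1, h1⟩ := hF
    obtain ⟨w2, h2⟩ := hG
    obtain ⟨r, hr⟩ := exists_add_pow_prime_eq (Fact.out : p.Prime) ((sp v F).eval a)
      ((sp v G).eval a)
    refine ⟨w1 + w2 - (sp v F).eval a * (sp v G).eval a * r, ?_⟩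
    rw [sp_add, sp_add, h1, h2, hr]
    ring
  | monomial n c =>
    obtain ⟨w, hw⟩ := expand_eq p c
    refine ⟨aeval v w * a ^ (p * n), ?_⟩
    have h1 : aeval (v ^ p) c = (aeval v c) ^ p + p * aeval v w := by
      rw [← Polynomial.expand_aeval, hw]
      simp
    rw [sp_mono, sp_mono, h1, mul_pow, ← pow_mul, ← pow_mul, Nat.mul_comm n p]
    ring

theorem sub_frob {A : Type*} [CommRing A] (a b : A) (p : ℕ) [Fact p.Prime] :
    ∃ r : A, a ^ p - b ^ p = (a - b) ^ p + p * r := by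
  obtain ⟨r, hr⟩ := exists_add_pow_prime_eq (Fact.out : p.Prime) (a - b) b
  refine ⟨(a - b) * b * r, ?_⟩
  rw [sub_add_cancel] at hr
  rw [hr]
  ring

section
variable {K : Type} [Field K] [NumberField K]

theorem mem_cls {ζ : K} {ω : ℂ} {τ : K →ₐ[ℚ] ℂ} : τ ∈ cls ζ ω ↔ τ ζ = ω := by
  classical
  simp [cls]

theorem integral_emb {x : K} (hx : IsIntegral ℤ x) (σ : K →ₐ[ℚ] ℂ) : IsIntegral ℤ (σ x) :=
  map_isIntegral_int (σ : K →+* ℂ) hx

/-- the value of the specialisation of a relative characteristic polynomial -/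
theorem eval_sp {ζ β : K} {F : ℤ[X][X]}
    (hF : ∀ σ : K →ₐ[ℚ] ℂ, sp (σ ζ) F = ∏ τ ∈ cls ζ (σ ζ), (X - C (τ β))) {ω : ℂ}
    (hω : ∃ τ : K →ₐ[ℚ] ℂ, τ ζ = ω) (z : ℂ) :
    (sp ω F).eval z = ∏ τ ∈ cls ζ ω, (z - τ β) := by
  obtain ⟨τ, rfl⟩ := hω
  rw [hF, eval_prod]
  simp

theorem gset_coprime {m p u : ℕ} (hu : u ∈ Gset m p) : u.Coprime m := by
  unfold Gset at hu
  rw [mem_filter] at hu
  exact hu.2.1

theorem gset_modEq {m p u : ℕ} (hu : u ∈ Gset m p) : u ≡ 1 [MOD m / p] := by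
  unfold Gset at hu
  rw [mem_filter] at hu
  exact hu.2.2

/-- `ζ ^ (u p) = ζ ^ p` if `u ≡ 1 (mod m / p)` -/
theorem pow_eq {A : Type*} [CommRing A] {ζ : A} {m p u : ℕ} (hζ : ζ ^ m = 1) (hp : p ∣ m)
    (hu : u ≡ 1 [MOD m / p]) : (ζ ^ u) ^ p = ζ ^ p := by
  rw [← pow_mul]
  have h1 : u * p ≡ 1 * p [MOD m / p * p] := Nat.ModEq.mul_right' p hu
  rw [Nat.div_mul_cancel hp, one_mul] at h1
  have h2 : ∀ k : ℕ, ζ ^ k = ζ ^ (k % m) := by
    intro k
    conv_lhs => rw [← Nat.div_add_mod k m]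
    rw [pow_add, pow_mul, hζ, one_pow, one_mul]
  rw [h2 (u * p), h2 p]
  exact congrArg (fun k => ζ ^ k) h1

theorem ram : S_J0 → S_TR → S_RAM := by
  intro hJ hT K _ _ m ζ α hm hζ hα p hp hpm u hu hne
  have : Fact p.Prime := ⟨hp⟩
  obtain ⟨F, -, hF⟩ := hJ K m ζ hm hζ α hα
  obtain ⟨G, -, hG⟩ := hJ K m ζ hm hζ (α ^ p) (hα.pow p)
  obtain ⟨hT1, -, -⟩ := hT K m ζ hm hζ
  have huc := gset_coprime hu
  have hζi : IsIntegral ℤ ζ := hζ.isIntegral hm
  have hx : ∀ σ : K →ₐ[ℚ] ℂ, σ ((sp (ζ ^ u) G).eval (α ^ p)) =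
      ∏ τ ∈ cls ζ ((σ ζ) ^ u), ((σ α) ^ p - (τ α) ^ p) := by
    intro σ
    have h1 := sp_map (σ : K →+* ℂ) (ζ ^ u) (α ^ p) G
    have h2 : (σ : K →+* ℂ) ((sp (ζ ^ u) G).eval (α ^ p)) = σ ((sp (ζ ^ u) G).eval (α ^ p)) := rfl
    rw [h2] at h1
    rw [h1, map_pow, map_pow]
    have h3 := eval_sp hG (hT1 σ u huc) ((σ α) ^ p)
    simp only [map_pow] at h3
    exact h3
  set x : K := (sp (ζ ^ u) G).eval (α ^ p) with hxdef
  have hdiv : ∃ y : K, IsIntegral ℤ y ∧ x = (p : K) * y := by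
    obtain ⟨σ⟩ : Nonempty (K →ₐ[ℚ] ℂ) := ⟨IsAlgClosed.lift⟩
    let O := integralClosure ℤ ℂ
    let w0 : O := ⟨σ ζ, integral_emb hζi σ⟩
    let a0 : O := ⟨σ α, integral_emb hα σ⟩
    let b : (K →ₐ[ℚ] ℂ) → O := fun τ => ⟨τ α, integral_emb hα τ⟩
    let q := Ideal.Quotient.mk (Ideal.span {((p : ℕ) : O)})
    have hqp : q ((p : ℕ) : O) = 0 :=
      Ideal.Quotient.eq_zero_iff_mem.2 (Ideal.mem_span_singleton_self _)
    have hcoe : ∀ v a : O, (((sp v F).eval a : O) : ℂ) = (sp (v : ℂ) F).eval (a : ℂ) := by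
      intro v a
      exact sp_map (O.val : O →+* ℂ) v a F
    have hzero : (sp w0 F).eval a0 = 0 := by
      apply Subtype.ext
      rw [hcoe]
      show (sp (σ ζ) F).eval (σ α) = 0
      rw [eval_sp hF ⟨σ, rfl⟩]
      exact Finset.prod_eq_zero (mem_cls.2 rfl) (sub_self _)
    have hprod : (sp (w0 ^ u) F).eval a0 = ∏ τ ∈ cls ζ ((σ ζ) ^ u), (a0 - b τ) := by
      apply Subtype.ext
      rw [hcoe]
      show (sp ((σ ζ) ^ u) F).eval (σ α) = _
      rw [eval_sp hF (hT1 σ u huc)]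
      rw [← Subalgebra.coe_val, map_prod]
      rfl
    have hw : (w0 ^ u) ^ p = w0 ^ p := by
      apply pow_eq _ hpm (gset_modEq hu)
      apply Subtype.ext
      show (σ ζ) ^ m = 1
      rw [← map_pow, hζ.pow_eq_one, map_one]
    have hq : q (∏ τ ∈ cls ζ ((σ ζ) ^ u), (a0 ^ p - (b τ) ^ p)) = 0 := by
      have h1 : ∀ τ, q (a0 ^ p - (b τ) ^ p) = q ((a0 - b τ) ^ p) := by
        intro τ
        obtain ⟨r, hr⟩ := sub_frob a0 (b τ) p
        rw [hr, map_add, map_mul, hqp, zero_mul, add_zero]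
      rw [map_prod]
      simp only [h1]
      rw [← map_prod, Finset.prod_pow, ← hprod]
      obtain ⟨r1, hr1⟩ := frob (w0 ^ u) a0 p F
      obtain ⟨r2, hr2⟩ := frob w0 a0 p F
      rw [hw, hr2, hzero, zero_pow hp.ne_zero, zero_add] at hr1
      have h3 := congrArg q hr1
      rw [map_mul, hqp, zero_mul, map_add, map_mul, hqp, zero_mul, add_zero] at h3
      exact h3.symm
    rw [Ideal.Quotient.eq_zero_iff_mem, Ideal.mem_span_singleton] at hq
    obtain ⟨z, hz⟩ := hq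
    have hσx : σ x = (p : ℂ) * (z : ℂ) := by
      rw [hx σ]
      have h4 := congrArg (fun t : O => (t : ℂ)) hz
      rw [← Subalgebra.coe_val, map_prod] at h4
      calc ∏ τ ∈ cls ζ ((σ ζ) ^ u), ((σ α) ^ p - (τ α) ^ p) = _ := h4
        _ = (p : ℂ) * (z : ℂ) := by
          show (((p : ℕ) : O) : ℂ) * (z : ℂ) = _
          norm_cast
    have hp0 : (p : K) ≠ 0 := by exact_mod_cast hp.ne_zero
    have hpC : (p : ℂ) ≠ 0 := by exact_mod_cast hp.ne_zero
    refine ⟨x / p, ?_, by field_simp⟩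
    have h5 : σ (x / p) = z := by
      rw [map_div₀, hσx, map_natCast]
      field_simp
    have h6 : IsIntegral ℤ (σ (x / p)) := by rw [h5]; exact z.2
    exact (isIntegral_algHom_iff (σ.restrictScalars ℤ) (RingHom.injective (σ : K →+* ℂ))).1 h6
  obtain ⟨y, hy, hxy⟩ := hdiv
  have hx0 : x ≠ 0 := by
    obtain ⟨σ⟩ : Nonempty (K →ₐ[ℚ] ℂ) := ⟨IsAlgClosed.lift⟩
    intro h0
    have h1 := hx σ
    rw [h0, map_zero] at h1
    obtain ⟨τ, hτ, hτ2⟩ := Finset.prod_eq_zero_iff.1 h1.symm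
    exact hne σ τ hτ (sub_eq_zero.1 hτ2)
  have hy0 : y ≠ 0 := by
    rintro rfl
    exact hx0 (by rw [hxy, mul_zero])
  have key := pow_le_prod_norm hy hy0 p
  refine key.trans (le_of_eq ?_)
  refine Finset.prod_congr rfl fun σ _ => ?_
  rw [← hxy, hx σ, norm_prod]

end

end Pool.Agent.Y692.RL
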